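import Pool.Agent.Work.MP_d717ad_an.Fin5

open MeasureTheory

namespace Pool.Agent.Results.MP_d717ad_an.SchwartzInvariance

open KaSch

/-- **Invariance of the `(k,a)`-Schwartz-type space under the `(k,a)`-generalized Fourier
transform**, for every dimension `N ≥ 2`, every root system, every non-negative invariant
multiplicity function and every `a > 0` (in particular in all the cases (1)-(3) of the question with
`N ≥ 2`).  The functions in `S_{k,a}(ℝ^N)` belong to `L²(ϑ_{k,a} dx)`; the unitary group
`U t = exp(i t Δ_{k,a})` exists and is unique; and the transform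
`F_{k,a} = exp(iπ(2⟨k⟩+N+a-2)/(2a)) U(π/(2a))` maps `S_{k,a}(ℝ^N)` onto `S_{k,a}(ℝ^N)`. -/
theorem result (N : ℕ) (hN : 2 ≤ N) (D : RootData N) (a : ℝ) (ha : 0 < a) :
    (∀ f : E N → ℂ, MemS D a f → ∃ g : L2 D a, Rep D a g f) ∧
    ∃ U : ℝ → L2 D a → L2 D a, IsPropagator D a U ∧
      (∀ U' : ℝ → L2 D a → L2 D a, IsPropagator D a U' → U' = U) ∧
      transform D a U '' SClass D a = SClass D a :=
  KaSch.final N hN D a ha

end Pool.Agent.Results.MP_d717ad_an.SchwartzInvariance
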